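import Pool.Agent.Helper24.AL.St
import Pool.Agent.Helper28.SP.M_MP

/-! # MP_e188f1_nt, almost all pairs of units: module TH -/

set_option autoImplicit false

namespace Pool.Agent.Helper12.AL

open Finset Matrix
open Pool.Agent.Helper24.AL
open Pool.Agent.Helper56.SW (τ Γ I bx E Rel N Nq fn_fin fn_div stSqrt)
open Pool.Agent.Helper28.SP (SZ SG red cnt W Sym Pos sP wP lam opX StLAM StSURJ StSYM StNPW StWPN
  StFOLD StLEVEL)

/-- the case `B² < c` -/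
theorem small_case (r : ℕ) (A B c : ℝ) (hr : 3 ≤ r) (hA : 1 ≤ A) (hAB : A ≤ B)
    (hBc : B ^ 2 ≤ c) :
    B ^ (r - 1) + A ^ (r - 1) * B ^ (r - 3) + A ^ r * B ^ (r - 2) / c ≤
      3 * (c ^ ((2 * (r : ℝ) - 6) / 3) * B ^ (2 * (r : ℝ) / 3)) := by
  have hB : 1 ≤ B := hA.trans hAB
  have hB0 : 0 < B := by linarith
  have hc : 1 ≤ c := le_trans (one_le_pow₀ hB) hBc
  have hc0 : 0 < c := by linarith
  obtain ⟨m, rfl⟩ : ∃ m, r = m + 3 := ⟨r - 3, by omega⟩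
  have e1 : B ^ (m + 3 - 1) ≤ B ^ (2 * m + 2) := pow_le_pow_right₀ hB (by omega)
  have e2 : A ^ (m + 3 - 1) * B ^ (m + 3 - 3) ≤ B ^ (2 * m + 2) := by
    calc A ^ (m + 3 - 1) * B ^ (m + 3 - 3) ≤ B ^ (m + 3 - 1) * B ^ (m + 3 - 3) := by gcongr
      _ = B ^ (2 * m + 2) := by
        rw [← pow_add]; congr 1; omega
  have e3 : A ^ (m + 3) * B ^ (m + 3 - 2) / c ≤ B ^ (2 * m + 2) := by
    rw [div_le_iff₀ hc0]
    calc A ^ (m + 3) * B ^ (m + 3 - 2) ≤ B ^ (m + 3) * B ^ (m + 3 - 2) := by gcongr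
      _ = B ^ (2 * m + 2) * B ^ 2 := by
        rw [← pow_add, ← pow_add]; congr 1; omega
      _ ≤ B ^ (2 * m + 2) * c := by gcongr
  have e4 : B ^ (2 * m + 2) ≤ c ^ ((2 * ((m + 3 : ℕ) : ℝ) - 6) / 3) *
      B ^ (2 * ((m + 3 : ℕ) : ℝ) / 3) := by
    have h1 : (B : ℝ) ^ (2 * m + 2) = (B ^ 2) ^ ((2 * ((m + 3 : ℕ) : ℝ) - 6) / 3) *
        B ^ (2 * ((m + 3 : ℕ) : ℝ) / 3) := by
      rw [← Real.rpow_natCast, ← Real.rpow_natCast, ← Real.rpow_mul hB0.le, ← Real.rpow_add hB0]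
      congr 1
      push_cast
      ring
    rw [h1]
    apply mul_le_mul_of_nonneg_right _ (by positivity)
    apply Real.rpow_le_rpow (by positivity) hBc
    push_cast
    have : (0 : ℝ) ≤ m := Nat.cast_nonneg m
    linarith
  linarith

/-- the main term in the case `c ≤ B²` -/
theorem main_term (r : ℕ) (A B c : ℝ) (hA : 0 < A) (hB : 0 < B) (hc : 0 < c) :
    (A * B) ^ r / c ^ 3 * (1 + c * (c ^ 2 / (A ^ 3 * B)) ^ ((r : ℝ) / 3)) =
      (A * B) ^ r / c ^ 3 + c ^ ((2 * (r : ℝ) - 6) / 3) * B ^ (2 * (r : ℝ) / 3) := by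
  have h1 : (c ^ 2 / (A ^ 3 * B)) ^ ((r : ℝ) / 3) =
      c ^ (2 * (r : ℝ) / 3) / (A ^ r * B ^ ((r : ℝ) / 3)) := by
    rw [Real.div_rpow (by positivity) (by positivity),
      Real.mul_rpow (by positivity) hB.le]
    congr 1
    · rw [← Real.rpow_natCast c 2, ← Real.rpow_mul hc.le]
      congr 1
      push_cast
      ring
    · congr 1
      rw [← Real.rpow_natCast A 3, ← Real.rpow_mul hA.le, ← Real.rpow_natCast A r]
      congr 1
      push_cast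
      ring
  have h2 : c ^ ((2 * (r : ℝ) - 6) / 3) = c ^ (2 * (r : ℝ) / 3) / c ^ 2 := by
    rw [← Real.rpow_natCast c 2, ← Real.rpow_sub hc]
    congr 1
    push_cast
    ring
  have h3 : B ^ (2 * (r : ℝ) / 3) = B ^ r / B ^ ((r : ℝ) / 3) := by
    rw [← Real.rpow_natCast B r, ← Real.rpow_sub hB]
    congr 1
    ring
  rw [h1, h2, h3, mul_pow]
  have hx : 0 < B ^ ((r : ℝ) / 3) := by positivity
  field_simp

theorem hTH (hLEV : StLEV) (hLEVEL : StLEVEL) (hSYM : StSYM) (hNPW : StNPW) (hSURJ : StSURJ) :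
    StTH := by
  intro r K C0 ε ε1 hr hK hC0 hε hε1
  have hr0 : (0 : ℝ) < r := by exact_mod_cast (by omega : 0 < r)
  obtain ⟨C1, hC1, hlevK⟩ := hLEV K C0 ε hK hC0 hε
  obtain ⟨C2, hC2, hfin⟩ := fn_fin r K ε1 hr hK hε1
  obtain ⟨D, hD, hdiv⟩ := fn_div (ε1 / (2 * r + 3)) (by positivity)
  have hD0 : 0 < D := by linarith
  set Ca : ℝ := 36 ^ r * (2 * 4 ^ (r + 1) * D ^ (2 * r + 3)) * C1 ^ ((r : ℝ) / 3) *
    K ^ ((r : ℝ) / 3) with hCa
  have hCa0 : 0 < Ca := by rw [hCa]; positivity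
  refine ⟨Ca + 3 * C2, by positivity, ?_⟩
  intro c l A B hc hl hA hAB hBK hG
  have hA0 : (1 : ℝ) ≤ A := by exact_mod_cast hA
  have hAB0 : (A : ℝ) ≤ B := by exact_mod_cast hAB
  have hB0 : (1 : ℝ) ≤ B := hA0.trans hAB0
  have hc0 : (1 : ℝ) ≤ c := by exact_mod_cast hc
  have hM0 : 0 ≤ ((A : ℝ) * B) ^ r / (c : ℝ) ^ 3 +
      (c : ℝ) ^ ((2 * (r : ℝ) - 6) / 3) * (B : ℝ) ^ (2 * (r : ℝ) / 3) := by positivity
  rcases le_or_gt c (B ^ 2) with hcB | hcB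
  · -- main case
    obtain ⟨sc, hsc⟩ := Pool.Agent.Helper28.SP.MP.scal hSURJ c hc
    obtain ⟨-, hsym, hpos⟩ := hSYM 1 l A B
    set T : ℝ := (c : ℝ) ^ 2 / ((A : ℝ) ^ 3 * B) with hT
    have hT0 : 0 ≤ T := by rw [hT]; positivity
    set P : ℝ := (2 * (A : ℝ) + 1) * (2 * B + 1) with hP
    have hP0 : 0 < P := by rw [hP]; positivity
    have hlev := hLEVEL 3 r _ (sP A B) (wP 1 l) hsym (by omega) hr (Or.inr hpos) c (P ^ 2)
      (C1 * (c : ℝ) ^ ε) (K * T) hc (by positivity) (by positivity) (by positivity) (by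
        intro e he
        have h := hlevK c l A B hc hl hA hAB hBK hcB hG e he
        refine h.trans (le_of_eq ?_)
        rw [hT, hP]
        ring)
    have hnp := hNPW c 1 l r A B sc hc (by omega) hsc
    have htau : τ c ≤ D * (c : ℝ) ^ (ε1 / (2 * (r : ℝ) + 3)) := hdiv c hc
    have htau0 : 0 ≤ τ c := by unfold τ; positivity
    have hGc : ((Γ c).card : ℝ) ≤ 2 * τ c := stSqrt c hc
    set X : ℝ := (4 * τ c ^ 2) ^ (r + 1) *
      (C1 * (c : ℝ) ^ ε) ^ ((r : ℝ) / (3 : ℕ)) * (P ^ 2) ^ r / (c : ℝ) ^ 3 *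
          (1 + c * (K * T) ^ ((r : ℝ) / (3 : ℕ))) with hX
    have hX0 : 0 ≤ X := by rw [hX]; positivity
    have hsum : ∑ x ∈ Γ c, (W (sP A B) (wP 1 l) c r (sc x) : ℝ) ≤ 2 * τ c * X := by
      calc ∑ x ∈ Γ c, (W (sP A B) (wP 1 l) c r (sc x) : ℝ) ≤ ∑ x ∈ Γ c, X :=
            sum_le_sum fun x _ => hlev (sc x)
        _ = (Γ c).card * X := by rw [sum_const, nsmul_eq_mul]
        _ ≤ 2 * τ c * X := by gcongr
    have hNN := hnp.trans hsum
    set N1 : ℝ := (N c 1 l r A B : ℝ) with hN1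
    set Q : ℝ := ((A : ℝ) + 1) * ((B : ℝ) + 1) with hQ
    have hQ0 : 0 < Q := by rw [hQ]; positivity
    have hPQ : P ^ 2 ≤ 36 * ((A : ℝ) * B) * Q := by
      have e1 : (2 * (A : ℝ) + 1) ^ 2 ≤ 6 * A * (A + 1) := by nlinarith
      have e2 : (2 * (B : ℝ) + 1) ^ 2 ≤ 6 * B * (B + 1) := by nlinarith
      calc P ^ 2 = (2 * (A : ℝ) + 1) ^ 2 * (2 * (B : ℝ) + 1) ^ 2 := by rw [hP]; ring
        _ ≤ (6 * (A : ℝ) * (A + 1)) * (6 * (B : ℝ) * (B + 1)) := by gcongr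
        _ = 36 * ((A : ℝ) * B) * Q := by rw [hQ]; ring
    have h3 : ((3 : ℕ) : ℝ) = 3 := by norm_num
    have hcp : ((c : ℝ) ^ ε) ^ ((r : ℝ) / 3) = (c : ℝ) ^ (ε * r / 3) := by
      rw [← Real.rpow_mul (by positivity)]
      congr 1
      ring
    have hcp2 : ((c : ℝ) ^ (ε1 / (2 * (r : ℝ) + 3))) ^ (2 * r + 3) = (c : ℝ) ^ ε1 := by
      rw [← Real.rpow_natCast, ← Real.rpow_mul (by positivity)]
      congr 1
      push_cast
      field_simp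
    have hcp3 : (c : ℝ) ^ (ε * r / 3) * (c : ℝ) ^ ε1 = (c : ℝ) ^ (ε * r / 3 + ε1) := by
      rw [← Real.rpow_add (by positivity)]
    have hK3 : 1 ≤ K ^ ((r : ℝ) / 3) := Real.one_le_rpow hK (by positivity)
    have hlast : 1 + c * (K * T) ^ ((r : ℝ) / 3) ≤
        K ^ ((r : ℝ) / 3) * (1 + c * T ^ ((r : ℝ) / 3)) := by
      rw [Real.mul_rpow (by positivity) hT0]
      nlinarith
    have key : 2 * τ c * X ≤ Ca * (c : ℝ) ^ (ε * r / 3 + ε1) *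
          (((A : ℝ) * B) ^ r / (c : ℝ) ^ 3 * (1 + c * T ^ ((r : ℝ) / 3))) * Q ^ r := by
      calc 2 * τ c * X = 2 * 4 ^ (r + 1) * τ c ^ (2 * r + 3) *
            (C1 ^ ((r : ℝ) / 3) * (c : ℝ) ^ (ε * r / 3)) * (P ^ 2) ^ r / (c : ℝ) ^ 3 *
          (1 + c * (K * T) ^ ((r : ℝ) / 3)) := by
            rw [hX, h3, Real.mul_rpow (x := C1) (by positivity) (by positivity), hcp, mul_pow 4]
            ring
        _ ≤ 2 * 4 ^ (r + 1) * (D * (c : ℝ) ^ (ε1 / (2 * (r : ℝ) + 3))) ^ (2 * r + 3) *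
            (C1 ^ ((r : ℝ) / 3) * (c : ℝ) ^ (ε * r / 3)) *
            (36 * ((A : ℝ) * B) * Q) ^ r / (c : ℝ) ^ 3 *
          (K ^ ((r : ℝ) / 3) * (1 + c * T ^ ((r : ℝ) / 3))) := by gcongr
        _ = _ := by
            rw [mul_pow D, hcp2, mul_pow _ Q, mul_pow (36 : ℝ), ← hcp3, hCa]
            ring
    have hfinal := le_of_mul_le_mul_right (hNN.trans key) (by positivity)
    rw [hT, main_term r A B c (by linarith) (by linarith) (by linarith)] at hfinal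
    refine hfinal.trans ?_
    have hc1 : 0 ≤ (c : ℝ) ^ (ε * r / 3 + ε1) := by positivity
    have : Ca * (c : ℝ) ^ (ε * r / 3 + ε1) ≤ (Ca + 3 * C2) * (c : ℝ) ^ (ε * r / 3 + ε1) := by
      apply mul_le_mul_of_nonneg_right _ hc1
      linarith
    exact mul_le_mul_of_nonneg_right this hM0
  · -- small case
    have hBc : (B : ℝ) ^ 2 ≤ c := by exact_mod_cast hcB.le
    have h1 := hfin c 1 l A B hc isCoprime_one_left hl hA hAB hBK
    have h2 := small_case r A B c hr hA0 hAB0 hBc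
    have hce : (c : ℝ) ^ ε1 ≤ (c : ℝ) ^ (ε * r / 3 + ε1) := by
      apply Real.rpow_le_rpow_of_exponent_le hc0
      have : 0 ≤ ε * r / 3 := by positivity
      linarith
    set S : ℝ := (c : ℝ) ^ ((2 * (r : ℝ) - 6) / 3) * (B : ℝ) ^ (2 * (r : ℝ) / 3) with hS
    have hS0 : 0 ≤ S := by rw [hS]; positivity
    have hAc : 0 ≤ ((A : ℝ) * B) ^ r / (c : ℝ) ^ 3 := by positivity
    calc (N c 1 l r A B : ℝ) ≤ C2 * (c : ℝ) ^ ε1 * (3 * S) := h1.trans (by gcongr)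
      _ ≤ C2 * (c : ℝ) ^ (ε * r / 3 + ε1) * (3 * S) := by gcongr
      _ = 3 * C2 * (c : ℝ) ^ (ε * r / 3 + ε1) * S := by ring
      _ ≤ (Ca + 3 * C2) * (c : ℝ) ^ (ε * r / 3 + ε1) *
          (((A : ℝ) * B) ^ r / (c : ℝ) ^ 3 + S) := by
        apply mul_le_mul _ (by linarith) hS0 (by positivity)
        apply mul_le_mul_of_nonneg_right _ (by positivity)
        linarith

end Pool.Agent.Helper12.AL
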